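import Pool.Agent.Run7.h547.KM.Iface

/-!
# Project KM (helper547), piece COHN: Cohn's theorem for three generators, with degrees
-/

set_option autoImplicit false

universe u

namespace Pool.Agent.Run7.h393.KM

open Pool.Agent.Run7.h547.KM

/-- the symmetric element of the word `w` -/
noncomputable def SS (k : Type u) [Field k] (w : List (Fin 3)) : AA k := WW k w + WW k w.reverse

section

variable {k : Type u} [Field k]

theorem WW_mul (u v : List (Fin 3)) : WW k u * WW k v = WW k (u ++ v) := by
  unfold WW
  rw [MonoidAlgebra.single_mul_single, one_mul, FreeMonoid.ofList_append]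

theorem SS_reverse (w : List (Fin 3)) : SS k w.reverse = SS k w := by
  unfold SS
  rw [List.reverse_reverse, add_comm]

theorem SS_mul (u v : List (Fin 3)) : SS k u * SS k v + SS k v * SS k u =
    SS k (u ++ v) + SS k (v ++ u) + SS k (u ++ v.reverse) + SS k (u.reverse ++ v) := by
  unfold SS
  simp only [mul_add, add_mul, WW_mul, List.reverse_append, List.reverse_reverse]
  abel

theorem SS_single_mul (i : Fin 3) (u : List (Fin 3)) :
    WW k [i] * SS k u + SS k u * WW k [i] = SS k (i :: u) + SS k (u ++ [i]) := by
  unfold SS
  simp only [mul_add, add_mul, WW_mul, List.reverse_append, List.reverse_cons, List.reverse_nil,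
    List.nil_append, List.singleton_append]
  abel

theorem dup_split (w : List (Fin 3)) (h : ¬ w.Nodup) :
    ∃ (p : List (Fin 3)) (i : Fin 3) (q r : List (Fin 3)), w = p ++ i :: (q ++ i :: r) := by
  induction w with
  | nil => exact absurd List.nodup_nil h
  | cons a t ih =>
    by_cases ha : a ∈ t
    · obtain ⟨q, r, hqr⟩ := List.append_of_mem ha
      exact ⟨[], a, q, r, by rw [hqr]; rfl⟩
    · have ht : ¬ t.Nodup := fun ht => h (List.nodup_cons.2 ⟨ha, ht⟩)
      obtain ⟨p, i, q, r, hh⟩ := ih ht
      exact ⟨a :: p, i, q, r, by rw [hh]; rfl⟩

theorem cohn_step [CharZero k] (J : ℕ → Submodule k (AA k)) (h1 : ∀ i, WW k [i] ∈ J 1)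
    (hmul : ∀ m n x y, x ∈ J m → y ∈ J n → x * y + y * x ∈ J (m + n)) (n : ℕ) (hn : 3 ≤ n)
    (IH : ∀ w : List (Fin 3), w ≠ [] → w.length < n → SS k w ∈ J w.length)
    (w : List (Fin 3)) (hw : w.length = n) : SS k w ∈ J n := by
  set T : List (Fin 3) → (AA k ⧸ J n) := fun w => (J n).mkQ (SS k w) with hT
  have T0 : ∀ x : AA k, x ∈ J n → (J n).mkQ x = 0 := fun x hx =>
    (Submodule.Quotient.mk_eq_zero _).2 hx
  have Trev : ∀ w, T w.reverse = T w := fun w => by simp only [hT, SS_reverse]
  have two : ∀ x : AA k ⧸ J n, x + x = 0 → x = 0 := by
    intro x hx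
    have h2 : (2 : k) • x = 0 := by rw [two_smul]; exact hx
    exact (smul_eq_zero.1 h2).resolve_left two_ne_zero
  -- (1)
  have r1 : ∀ (i : Fin 3) (u : List (Fin 3)), u.length + 1 = n → T (i :: u) = - T (u ++ [i]) := by
    intro i u hu
    have hu0 : u ≠ [] := by
      rintro rfl
      simp only [List.length_nil] at hu
      omega
    have h2 := hmul 1 u.length _ _ (h1 i) (IH u hu0 (by omega))
    rw [SS_single_mul, show 1 + u.length = n by omega] at h2
    have h4 : T (i :: u) + T (u ++ [i]) = 0 := by
      simp only [hT]
      rw [← map_add]
      exact T0 _ h2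
    exact eq_neg_of_add_eq_zero_left h4
  -- rotation
  have rot : ∀ u v : List (Fin 3), u.length + v.length = n →
      T (u ++ v) = (-1 : k) ^ u.length • T (v ++ u) := by
    intro u
    induction u with
    | nil => intro v _; simp
    | cons i u' ih =>
      intro v hv
      simp only [List.length_cons] at hv
      rw [List.cons_append, r1 i (u' ++ v) (by simp only [List.length_append]; omega),
        List.append_assoc, ih (v ++ [i]) (by simp only [List.length_append, List.length_singleton]; omega)]
      rw [List.length_cons, pow_succ, mul_neg_one, neg_smul, List.append_assoc,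
        List.singleton_append]
  -- (2)
  have sw0 : ∀ (i j : Fin 3) (u : List (Fin 3)), u.length + 2 = n →
      T (i :: j :: u) + T (j :: i :: u) = 0 := by
    intro i j u hu
    have hu0 : u ≠ [] := by
      rintro rfl
      simp only [List.length_nil] at hu
      omega
    have hij : SS k [i, j] ∈ J 2 := IH [i, j] (by simp) (by simp; omega)
    have h2 := hmul 2 u.length _ _ hij (IH u hu0 (by omega))
    rw [SS_mul, show 2 + u.length = n by omega] at h2
    have h3 := T0 _ h2
    rw [map_add, map_add, map_add] at h3
    have e1 : T (u ++ [i, j]) = T ([i, j] ++ u) := by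
      rw [rot [i, j] u (by simp only [List.length_cons, List.length_nil]; omega)]
      simp
    have e2 : T ([i, j] ++ u.reverse) = T ([j, i] ++ u) := by
      rw [← Trev ([i, j] ++ u.reverse)]
      have : ([i, j] ++ u.reverse).reverse = u ++ [j, i] := by simp
      rw [this, rot [j, i] u (by simp only [List.length_cons, List.length_nil]; omega)]
      simp
    have h4 : T ([i, j] ++ u) + T (u ++ [i, j]) + T ([i, j] ++ u.reverse) +
        T ([i, j].reverse ++ u) = 0 := h3
    have e3 : ([i, j] : List (Fin 3)).reverse ++ u = [j, i] ++ u := by simp
    rw [e1, e2, e3] at h4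
    apply two
    have h5 : T (i :: j :: u) + T (j :: i :: u) + (T (i :: j :: u) + T (j :: i :: u)) =
        T ([i, j] ++ u) + T ([i, j] ++ u) + T ([j, i] ++ u) + T ([j, i] ++ u) := by
      simp only [List.cons_append, List.nil_append]
      abel
    rw [h5, h4]
  -- (3)
  have sw : ∀ (u : List (Fin 3)) (i j : Fin 3) (v : List (Fin 3)), u.length + v.length + 2 = n →
      T (u ++ i :: j :: v) = - T (u ++ j :: i :: v) := by
    intro u i j v h
    apply eq_neg_of_add_eq_zero_left
    rw [rot u (i :: j :: v) (by simp only [List.length_cons]; omega),
      rot u (j :: i :: v) (by simp only [List.length_cons]; omega), ← smul_add]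
    simp only [List.cons_append]
    rw [sw0 i j (v ++ u) (by simp only [List.length_append]; omega), smul_zero]
  have mv : ∀ (q p : List (Fin 3)) (i : Fin 3) (r : List (Fin 3)),
      p.length + q.length + r.length + 1 = n →
      T (p ++ i :: (q ++ r)) = (-1 : k) ^ q.length • T (p ++ (q ++ i :: r)) := by
    intro q
    induction q with
    | nil => intro p i r _; simp
    | cons j q' ih =>
      intro p i r h
      simp only [List.length_cons] at h
      rw [List.cons_append, sw p i j (q' ++ r) (by simp only [List.length_append]; omega)]
      have e : p ++ j :: i :: (q' ++ r) = (p ++ [j]) ++ i :: (q' ++ r) := by simp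
      rw [e, ih (p ++ [j]) i r (by simp only [List.length_append, List.length_singleton]; omega)]
      rw [List.length_cons, pow_succ, mul_neg_one, neg_smul]
      congr 3
      simp
  have key : T w = 0 := by
    rcases Nat.lt_or_ge 3 n with h4 | h3
    · have hnd : ¬ w.Nodup := by
        intro hnd
        have := hnd.length_le_card
        simp only [Fintype.card_fin] at this
        omega
      obtain ⟨p, i, q, r, rfl⟩ := dup_split w hnd
      simp only [List.length_append, List.length_cons] at hw
      rw [mv q p i (i :: r) (by simp only [List.length_cons]; omega)]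
      have h5 : T (p ++ (q ++ i :: i :: r)) = 0 := by
        apply two
        have h6 := sw (p ++ q) i i r (by simp only [List.length_append]; omega)
        rw [List.append_assoc] at h6
        nth_rewrite 1 [h6]
        exact neg_add_cancel _
      rw [h5, smul_zero]
    · have hn3 : n = 3 := by omega
      match w, hw with
      | [], hw =>
        simp only [List.length_nil] at hw
        omega
      | i :: u, hw =>
        simp only [List.length_cons] at hw
        have a1 := r1 i u hw
        have a2 := mv u [] i [] (by simp only [List.length_nil]; omega)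
        have hu2 : u.length = 2 := by omega
        rw [hu2] at a2
        simp only [List.nil_append, List.append_nil] at a2
        have a3 : T (i :: u) = T (u ++ [i]) := by rw [a2]; simp
        apply two
        nth_rewrite 1 [a1]
        rw [a3]
        exact neg_add_cancel _
  exact (Submodule.Quotient.mk_eq_zero _).1 key

end

/-- the piece COHN -/
theorem t_COHN : S_COHN.{u} := by
  intro k _ _ J h1 hmul
  have main : ∀ n : ℕ, ∀ w : List (Fin 3), w ≠ [] → w.length = n → SS k w ∈ J n := by
    intro n
    induction n using Nat.strong_induction_on with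
    | _ n ih =>
      intro w hw0 hw
      rcases Nat.lt_or_ge n 3 with h3 | h3
      · match w, hw0, hw with
        | [i], _, hw =>
          simp only [List.length_cons, List.length_nil] at hw
          subst hw
          exact (J 1).add_mem (h1 i) (h1 i)
        | [i, j], _, hw =>
          simp only [List.length_cons, List.length_nil] at hw
          subst hw
          have h := hmul 1 1 _ _ (h1 i) (h1 j)
          rw [WW_mul, WW_mul] at h
          exact h
        | i :: j :: l :: t, _, hw =>
          simp only [List.length_cons] at hw
          omega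
      · exact cohn_step J h1 hmul n h3 (fun w h0 hl => ih w.length hl w h0 rfl) w hw
  intro w hw
  exact main w.length w hw rfl

end Pool.Agent.Run7.h393.KM
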